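import Pool.Agent.Y262.NU.Stm
import Pool.Agent.Y363.QE.Bs

/-!
# Project NU (helper262), job FORMS: the forms of the conformal metrics

Author of this file: helper726.
-/

set_option autoImplicit false

open Set Filter Topology MeasureTheory
open scoped Real

noncomputable section

namespace Pool.Agent.Y726.NU.Forms

open Pool.Agent.Y262.QE Pool.Agent.Y262.NU

section

lemma bdd {M : Type} [MetricSpace M] [CompactSpace M] {W : M → ℝ} (hW : Continuous W) : ∃ C, ∀ x, |W x| ≤ C := by
  obtain ⟨C, hC⟩ := (isCompact_range hW.abs).bddAbove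
  exact ⟨C, fun x => hC (mem_range_self x)⟩

variable {M : Type} [MetricSpace M] [CompactSpace M] [MeasurableSpace M] [BorelSpace M]
  {μ : Measure M}

lemma int_c {W : M → ℝ} (hW : Continuous W) (g : Lp ℝ 2 μ) :
    Integrable (fun x => W x * (g x * g x)) μ := by
  obtain ⟨C, hC⟩ := bdd hW
  exact Pool.Agent.Y363.QE.int_w hW.measurable hC g

lemma cmp {W0 W1 W2 : M → ℝ} (h0 : Continuous W0) (h1 : Continuous W1) (h2 : Continuous W2)
    (c0 c1 c2 : ℝ) (h : ∀ x, c0 * W0 x ≤ c1 * W1 x + c2 * W2 x) (g : Lp ℝ 2 μ) :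
    c0 * ∫ x, W0 x * (g x * g x) ∂μ ≤
      c1 * (∫ x, W1 x * (g x * g x) ∂μ) + c2 * ∫ x, W2 x * (g x * g x) ∂μ := by
  rw [← integral_const_mul, ← integral_const_mul, ← integral_const_mul,
    ← integral_add ((int_c h1 g).const_mul c1) ((int_c h2 g).const_mul c2)]
  refine integral_mono ((int_c h0 g).const_mul c0)
    (((int_c h1 g).const_mul c1).add ((int_c h2 g).const_mul c2)) fun x => ?_
  have := mul_le_mul_of_nonneg_right (h x) (mul_self_nonneg (g x))
  simp only
  linarith

end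

lemma cs {H : Type} [NormedAddCommGroup H] [InnerProductSpace ℝ H] (B : H →L[ℝ] H →L[ℝ] ℝ)
    (hs : ∀ u v, B u v = B v u) (hp : ∀ v, 0 ≤ B v v) (u v : H) :
    (B u v) ^ 2 ≤ B u u * B v v := by
  have h : ∀ s : ℝ, 0 ≤ B v v * (s * s) + 2 * B u v * s + B u u := by
    intro s
    have h1 := hp (u + s • v)
    simp only [map_add, map_smul, add_apply, smul_apply, smul_eq_mul] at h1
    rw [hs v u] at h1
    linarith
  have h2 := discrim_le_zero h
  unfold discrim at h2
  nlinarith

lemma exp_one {x : ℝ} : Real.exp x ≤ 1 + x * Real.exp x := by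
  have h1 : 1 - x ≤ Real.exp (-x) := by
    have := Real.add_one_le_exp (-x)
    linarith
  have h2 := mul_le_mul_of_nonneg_left h1 (Real.exp_pos x).le
  rw [← Real.exp_add, add_neg_cancel, Real.exp_zero] at h2
  linarith

lemma exp_two {x : ℝ} (hx : 0 ≤ x) : Real.exp x ≤ 1 + x + x ^ 2 * Real.exp x := by
  have h1 := exp_one (x := x)
  have h2 := mul_le_mul_of_nonneg_left h1 hx
  nlinarith

theorem forms (hMul : Pool.Agent.Y262.QE.StMul) (hFmE : StFmE) : StForms := by
  intro M _ _ _ _ μ _ w f ψ H _ _ i a b0 K0 hw hw0 hf hf0 hψ hψ0 hK0 hb0 hFm K hK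
  have hE1 : 1 ≤ Real.exp K0 := Real.one_le_exp (by linarith)
  have hKE : K0 * Real.exp K0 ≤ K := by
    have h1 : K0 * Real.exp K0 ≤ K0 ^ 2 * Real.exp K0 := by
      apply mul_le_mul_of_nonneg_right _ (Real.exp_pos K0).le
      nlinarith
    linarith
  have hKK : K0 ≤ K := by
    have h1 : K0 * 1 ≤ K0 * Real.exp K0 := mul_le_mul_of_nonneg_left hE1 (by linarith)
    linarith
  have hK1 : 1 ≤ K := hK0.trans hKK
  -- the weights
  obtain ⟨P, hP⟩ : ∃ P : ℝ → ℝ → M → ℝ,
      P = fun t τ x => Real.exp (t * f x + τ * ψ x) * w x := ⟨_, rfl⟩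
  have hPc : ∀ t τ, Continuous (P t τ) := by
    intro t τ
    rw [hP]
    fun_prop
  have hQc : ∀ t τ, Continuous fun x => f x * P t τ x := fun t τ => hf.mul (hPc t τ)
  have hP0 : ∀ t τ x, 0 < P t τ x := by
    intro t τ x
    rw [hP]
    exact mul_pos (Real.exp_pos _) (hw0 x)
  have hPd : ∀ t δ τ x, P (t + δ) τ x = Real.exp (δ * f x) * P t τ x := by
    intro t δ τ x
    simp only [hP]
    rw [← mul_assoc, ← Real.exp_add]
    congr 2
    ring
  have hPt : ∀ t τ x, P t τ x = Real.exp (τ * ψ x) * P t 0 x := by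
    intro t τ x
    simp only [hP]
    rw [← mul_assoc, ← Real.exp_add]
    congr 2
    ring
  have hPs : ∀ t x, P t 0 x = Real.exp (t * f x) * P 0 0 x := by
    intro t x
    have := hPd 0 t 0 x
    rwa [zero_add] at this
  -- the forms
  have hb : ∀ t τ : ℝ, ∃ b : H →L[ℝ] H →L[ℝ] ℝ,
      ∀ u v, b u v = ∫ x, P t τ x * (i u x * i v x) ∂μ := by
    intro t τ
    obtain ⟨C, hC⟩ := bdd (hPc t τ)
    obtain ⟨B, hB⟩ := hMul M μ (P t τ) (hPc t τ).measurable _ hC
    refine ⟨B.bilinearComp i i, fun u v => ?_⟩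
    rw [ContinuousLinearMap.bilinearComp_apply, hB]
  have hk : ∀ t τ : ℝ, ∃ k : H →L[ℝ] H →L[ℝ] ℝ,
      ∀ u v, k u v = ∫ x, (f x * P t τ x) * (i u x * i v x) ∂μ := by
    intro t τ
    obtain ⟨C, hC⟩ := bdd (hQc t τ)
    obtain ⟨B, hB⟩ := hMul M μ (fun x => f x * P t τ x) (hQc t τ).measurable _ hC
    refine ⟨B.bilinearComp i i, fun u v => ?_⟩
    rw [ContinuousLinearMap.bilinearComp_apply, hB]
  choose b hb using hb
  choose k hk using hk
  have hbs : ∀ t τ u v, b t τ u v = b t τ v u := by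
    intro t τ u v
    rw [hb, hb]
    refine integral_congr_ae (Eventually.of_forall fun x => ?_)
    simp only
    ring
  have hks : ∀ t τ u v, k t τ u v = k t τ v u := by
    intro t τ u v
    rw [hk, hk]
    refine integral_congr_ae (Eventually.of_forall fun x => ?_)
    simp only
    ring
  have hk0 : ∀ t τ v, 0 ≤ k t τ v v := by
    intro t τ v
    rw [hk]
    exact integral_nonneg fun x =>
      mul_nonneg (mul_nonneg (hf0 x).1 (hP0 t τ x).le) (mul_self_nonneg _)
  refine ⟨b, k, ?_, ?_, ?_⟩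
  · intro t τ u v
    rw [hb, hP]
  · intro t τ u v
    rw [hk, hP]
  -- the inequalities
  refine ⟨hK1, fun τ => ⟨fun t => ?_, fun t => hks t τ, fun t v => ⟨hk0 t τ v, ?_⟩, ?_, ?_, ?_⟩, ?_, ?_, ?_⟩
  · -- equivalent forms
    obtain ⟨R, hR⟩ : ∃ R : ℝ, R = |t| * K0 + |τ| * K0 := ⟨_, rfl⟩
    have hx : ∀ x, |t * f x + τ * ψ x| ≤ R := by
      intro x
      rw [hR]
      refine (abs_add_le _ _).trans (add_le_add ?_ ?_)
      · rw [abs_mul, abs_of_nonneg (hf0 x).1]
        exact mul_le_mul_of_nonneg_left (hf0 x).2 (abs_nonneg t)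
      · rw [abs_mul, abs_of_nonneg (hψ0 x).1]
        exact mul_le_mul_of_nonneg_left (hψ0 x).2 (abs_nonneg τ)
    refine hFmE H a b0 (b t τ) hFm (Real.exp (-R)) (Real.exp R) (Real.exp_pos _) (hbs t τ)
      (fun v => ?_) fun v => ?_
    · rw [hb0, hb]
      have := cmp (μ := μ) hw (hPc t τ) (hPc t τ) (Real.exp (-R)) 1 0 (fun x => by
        rw [zero_mul, add_zero, one_mul]
        simp only [hP]
        exact mul_le_mul_of_nonneg_right (Real.exp_le_exp.2 (neg_le_of_abs_le (hx x)))
          (hw0 x).le) (i v)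
      linarith
    · rw [hb0, hb]
      have := cmp (μ := μ) (hPc t τ) hw hw 1 (Real.exp R) 0 (fun x => by
        rw [zero_mul, add_zero, one_mul]
        simp only [hP]
        exact mul_le_mul_of_nonneg_right (Real.exp_le_exp.2 ((le_abs_self _).trans (hx x)))
          (hw0 x).le) (i v)
      linarith
  · -- `k ≤ K b`
    show k t τ v v ≤ K * b t τ v v
    rw [hb, hk]
    have := cmp (μ := μ) (hQc t τ) (hPc t τ) (hPc t τ) 1 K 0 (fun x => by
      rw [zero_mul, add_zero, one_mul]
      exact mul_le_mul_of_nonneg_right ((hf0 x).2.trans hKK) (hP0 t τ x).le) (i v)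
    linarith
  · -- up
    intro t δ v hδ
    show b t τ v v + δ * k t τ v v ≤ b (t + δ) τ v v
    rw [hb, hk, hb]
    have := cmp (μ := μ) (hPc t τ) (hPc (t + δ) τ) (hQc t τ) 1 1 (-δ) (fun x => by
      rw [hPd]
      have h1 := mul_le_mul_of_nonneg_right (Real.add_one_le_exp (δ * f x)) (hP0 t τ x).le
      linarith) (i v)
    linarith
  · -- ub
    intro t δ v hδ
    show b (t + δ) τ v v ≤ Real.exp (K * δ) * b t τ v v
    rw [hb, hb]
    have := cmp (μ := μ) (hPc (t + δ) τ) (hPc t τ) (hPc t τ) 1 (Real.exp (K * δ)) 0 (fun x => by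
      rw [zero_mul, add_zero, one_mul, hPd]
      refine mul_le_mul_of_nonneg_right (Real.exp_le_exp.2 ?_) (hP0 t τ x).le
      have h1 := mul_le_mul_of_nonneg_left ((hf0 x).2.trans hKK) hδ
      linarith) (i v)
    linarith
  · -- dn
    intro t δ v hδ
    show b (t + δ) τ v v + δ * (K * b (t + δ) τ v v - k (t + δ) τ v v) ≤
      Real.exp (K * δ) * b t τ v v
    rw [hb, hb, hk]
    have := cmp (μ := μ) (hPc (t + δ) τ) (hPc t τ) (hQc (t + δ) τ) (1 + δ * K)
      (Real.exp (K * δ)) δ (fun x => by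
      have h1 : Real.exp (K * δ) * P t τ x = Real.exp (δ * (K - f x)) * P (t + δ) τ x := by
        rw [hPd, ← mul_assoc, ← Real.exp_add]
        congr 2
        ring
      rw [h1]
      have h2 := mul_le_mul_of_nonneg_right (Real.add_one_le_exp (δ * (K - f x)))
        (hP0 (t + δ) τ x).le
      linarith) (i v)
    linarith
  · -- tau
    intro t τ v hτ
    constructor
    · rw [hb, hb]
      have := cmp (μ := μ) (hPc t 0) (hPc t τ) (hPc t τ) 1 1 0 (fun x => by
        rw [zero_mul, add_zero, one_mul, one_mul, hPt t τ x]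
        have h1 : 1 ≤ Real.exp (τ * ψ x) := Real.one_le_exp (mul_nonneg hτ (hψ0 x).1)
        have h2 := mul_le_mul_of_nonneg_right h1 (hP0 t 0 x).le
        linarith) (i v)
      linarith
    · rw [hb, hb]
      have := cmp (μ := μ) (hPc t τ) (hPc t 0) (hPc t 0) 1 (Real.exp (K * τ)) 0 (fun x => by
        rw [zero_mul, add_zero, one_mul, hPt t τ x]
        refine mul_le_mul_of_nonneg_right (Real.exp_le_exp.2 ?_) (hP0 t 0 x).le
        have h1 := mul_le_mul_of_nonneg_left ((hψ0 x).2.trans hKK) hτ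
        linarith) (i v)
      linarith
  · -- sec
    intro t v ht0 ht1
    rw [hb, hb, hk]
    have := cmp (μ := μ) (hPc t 0) (hPc 0 0) (hQc 0 0) 1 (1 + K * t ^ 2) t (fun x => by
      rw [one_mul, hPs]
      have hf1 := (hf0 x).1
      have hx0 : 0 ≤ t * f x := mul_nonneg ht0 hf1
      have hx1 : t * f x ≤ K0 := by
        have h1 := mul_le_mul ht1 (hf0 x).2 hf1 (by norm_num : (0 : ℝ) ≤ 1)
        linarith
      have h2 := exp_two hx0
      have h3 : (t * f x) ^ 2 * Real.exp (t * f x) ≤ t ^ 2 * K := by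
        have h4 : (t * f x) ^ 2 ≤ t ^ 2 * K0 ^ 2 := by
          rw [mul_pow]
          exact mul_le_mul_of_nonneg_left (pow_le_pow_left₀ hf1 (hf0 x).2 2) (sq_nonneg t)
        have h5 : Real.exp (t * f x) ≤ Real.exp K0 := Real.exp_le_exp.2 hx1
        calc (t * f x) ^ 2 * Real.exp (t * f x) ≤ (t ^ 2 * K0 ^ 2) * Real.exp K0 :=
              mul_le_mul h4 h5 (Real.exp_pos _).le (by positivity)
          _ = t ^ 2 * (K0 ^ 2 * Real.exp K0) := by ring
          _ ≤ t ^ 2 * K := mul_le_mul_of_nonneg_left hK (sq_nonneg t)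
      have h6 : Real.exp (t * f x) ≤ 1 + t * f x + t ^ 2 * K := by linarith
      have h7 := mul_le_mul_of_nonneg_right h6 (hP0 0 0 x).le
      linarith) (i v)
    linarith
  · -- off
    intro t u v ht0 ht1 huv
    have hd : ∀ v, 0 ≤ b t 0 v v - b 0 0 v v ∧ b t 0 v v - b 0 0 v v ≤ K * t * b 0 0 v v := by
      intro v
      rw [hb, hb]
      constructor
      · have := cmp (μ := μ) (hPc 0 0) (hPc t 0) (hPc t 0) 1 1 0 (fun x => by
          rw [zero_mul, add_zero, one_mul, one_mul, hPs t x]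
          have h1 : 1 ≤ Real.exp (t * f x) := Real.one_le_exp (mul_nonneg ht0 (hf0 x).1)
          have h2 := mul_le_mul_of_nonneg_right h1 (hP0 0 0 x).le
          linarith) (i v)
        linarith
      · have := cmp (μ := μ) (hPc t 0) (hPc 0 0) (hPc 0 0) 1 (1 + K * t) 0 (fun x => by
          rw [zero_mul, add_zero, one_mul, hPs t x]
          refine mul_le_mul_of_nonneg_right ?_ (hP0 0 0 x).le
          have hf1 := (hf0 x).1
          have hx0 : 0 ≤ t * f x := mul_nonneg ht0 hf1
          have hx1 : t * f x ≤ K0 := by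
            have h1 := mul_le_mul ht1 (hf0 x).2 hf1 (by norm_num : (0 : ℝ) ≤ 1)
            linarith
          have h2 := exp_one (x := t * f x)
          have h3 : t * f x * Real.exp (t * f x) ≤ t * (K0 * Real.exp K0) := by
            have h4 : Real.exp (t * f x) ≤ Real.exp K0 := Real.exp_le_exp.2 hx1
            have h5 : t * f x ≤ t * K0 := mul_le_mul_of_nonneg_left (hf0 x).2 ht0
            calc t * f x * Real.exp (t * f x) ≤ (t * K0) * Real.exp K0 :=
                  mul_le_mul h5 h4 (Real.exp_pos _).le (by positivity)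
              _ = _ := by ring
          have h6 := mul_le_mul_of_nonneg_left hKE ht0
          linarith) (i v)
        linarith
    have h1 := cs (b t 0 - b 0 0) (fun u v => by
      rw [sub_apply, sub_apply, sub_apply, sub_apply, hbs t 0 u v, hbs 0 0 u v]) (fun v => by
      rw [sub_apply, sub_apply]
      exact (hd v).1) u v
    simp only [sub_apply] at h1
    rw [huv, sub_zero] at h1
    have h2 : (b t 0 u u - b 0 0 u u) * (b t 0 v v - b 0 0 v v) ≤
        (K * t * b 0 0 u u) * (K * t * b 0 0 v v) :=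
      mul_le_mul (hd u).2 (hd v).2 (hd v).1 ((hd u).1.trans (hd u).2)
    calc (b t 0 u v) ^ 2 ≤ _ := h1
      _ ≤ _ := h2
      _ = _ := by ring

end Pool.Agent.Y726.NU.Forms
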